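import Pool.Agent.Lib.MP_0f2988_co.Final

set_option autoImplicit false

open Pool.Agent.MP_0f2988_co in
/-- For every infinite, connected, locally finite, vertex-transitive simple graph `G`, the
Cartesian product of `G` with the two-way infinite path on the integers has a harmonic labeling. -/
theorem Pool.Agent.Results.MP_0f2988_co.HarmonicLabeling.result.{u} {V : Type u}
    (G : SimpleGraph V) (hinf : Infinite V) (hconn : G.Connected)
    (hfin : ∀ v, (G.neighborSet v).Finite) (htrans : ∀ u v, ∃ σ : G ≃g G, σ u = v)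
    (P : SimpleGraph (V × ℤ))
    (hP : ∀ x y, P.Adj x y ↔
      (x.2 = y.2 ∧ G.Adj x.1 y.1) ∨ (x.1 = y.1 ∧ |x.2 - y.2| = 1)) :
    ∃ φ : V × ℤ → ℤ, Function.Bijective φ ∧
      ∀ x, (φ x : ℚ) = (∑ᶠ y ∈ P.neighborSet x, (φ y : ℚ)) / (P.neighborSet x).ncard := by
  classical
  obtain ⟨o⟩ := hconn.nonempty
  have hcard : ∀ v, (hfin v).toFinset.card = (hfin o).toFinset.card := by
    intro v
    obtain ⟨σ, hσ⟩ := htrans v o
    refine Finset.card_bij (fun w _ => σ w) ?_ ?_ ?_
    · intro w hw
      rw [Set.Finite.mem_toFinset, SimpleGraph.mem_neighborSet] at hw ⊢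
      rw [← hσ]
      exact σ.map_adj_iff.2 hw
    · intro a _ b _ h
      exact σ.injective h
    · intro w hw
      rw [Set.Finite.mem_toFinset, SimpleGraph.mem_neighborSet] at hw
      refine ⟨σ.symm w, ?_, by simp⟩
      rw [Set.Finite.mem_toFinset, SimpleGraph.mem_neighborSet]
      have h1 := σ.map_adj_iff (v := v) (w := σ.symm w)
      rw [← h1, hσ]
      simpa using hw
  let H : RG V :=
    { G := G
      N := fun v => (hfin v).toFinset
      hN := fun v w => by rw [Set.Finite.mem_toFinset, SimpleGraph.mem_neighborSet]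
      d := (hfin o).toFinset.card
      hd := hcard
      conn := hconn
      inf := hinf
      trans := htrans }
  obtain ⟨φ, hφ1, hφ2⟩ := exists_labeling H
  refine ⟨fun p => φ p.1 p.2, hφ1, ?_⟩
  rintro ⟨u, n⟩
  have hinjn : Function.Injective (fun w : V => (w, n)) := by
    intro a b h
    rw [Prod.mk.injEq] at h
    exact h.1
  let S : Finset (V × ℤ) := (H.N u).image (fun w => (w, n)) ∪ {(u, n + 1), (u, n - 1)}
  have hS : P.neighborSet (u, n) = (S : Set (V × ℤ)) := by
    ext ⟨w, m⟩
    rw [SimpleGraph.mem_neighborSet, hP, Finset.mem_coe, Finset.mem_union, Finset.mem_image,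
      Finset.mem_insert, Finset.mem_singleton]
    simp only [Prod.mk.injEq]
    constructor
    · rintro (⟨h1, h2⟩ | ⟨h1, h2⟩)
      · left
        exact ⟨w, (H.hN u w).2 h2, rfl, h1⟩
      · right
        rcases (abs_eq (by norm_num : (0 : ℤ) ≤ 1)).1 h2 with h | h
        · right
          exact ⟨h1.symm, by omega⟩
        · left
          exact ⟨h1.symm, by omega⟩
    · rintro (⟨w', h1, h2, h3⟩ | h | h)
      · left
        subst h2
        exact ⟨h3, (H.hN u w').1 h1⟩
      · right
        refine ⟨h.1.symm, ?_⟩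
        rw [h.2]
        simp
      · right
        refine ⟨h.1.symm, ?_⟩
        rw [h.2]
        simp
  have hdisj : Disjoint ((H.N u).image (fun w => (w, n)))
      ({(u, n + 1), (u, n - 1)} : Finset (V × ℤ)) := by
    rw [Finset.disjoint_left]
    rintro ⟨w, m⟩ h1 h2
    rw [Finset.mem_image] at h1
    obtain ⟨w', _, h3⟩ := h1
    rw [Prod.mk.injEq] at h3
    rw [Finset.mem_insert, Finset.mem_singleton, Prod.mk.injEq, Prod.mk.injEq] at h2
    omega
  have hne : ((u, n + 1) : V × ℤ) ≠ (u, n - 1) := by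
    intro h
    rw [Prod.mk.injEq] at h
    omega
  have hcardS : S.card = H.d + 2 := by
    rw [Finset.card_union_of_disjoint hdisj, Finset.card_image_of_injective _ hinjn, H.hd,
      Finset.card_pair hne]
  have hsum : ∑ y ∈ S, ((φ y.1 y.2 : ℤ) : ℚ) = ((H.d : ℚ) + 2) * φ u n := by
    rw [Finset.sum_union hdisj, Finset.sum_image (fun a _ b _ h => hinjn h), Finset.sum_pair hne]
    have h := hφ2 u n
    have h2 : ((φ u (n + 1) + φ u (n - 1) + ∑ w ∈ H.N u, φ w n : ℤ) : ℚ) =
        ((((H.d : ℤ) + 2) * φ u n : ℤ) : ℚ) := by rw [h]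
    push_cast at h2
    linarith
  rw [hS, finsum_mem_coe_finset, Set.ncard_coe_finset, hcardS, hsum]
  push_cast
  have : ((H.d : ℚ) + 2) ≠ 0 := by positivity
  field_simp
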